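import Pool.Agent.Q276.HL.Stm
import Pool.Agent.W284.HZ.FIB

/-! HL-FIB4 (project HL of helper276). Adapts `Pool/Agent/W284/HZ/FIB.lean`. -/

set_option autoImplicit false

namespace Pool.Agent.Q252.HL.FIB4

open Pool.Agent.Q276.HL Pool.Agent.W284.HZFIB

lemma y2_bound {R T V : ℝ} {a b c d e p q : ℤ} (hT : 0 < T) (hV : 0 < V)
    (hg : Good4 3000 R T V a b c d e p q) (hc : Ch2 3000 R T V a b c d p q) :
    |(p : ℝ) / (T ^ 2 * q)| ≤ 9000000 := by
  have h1 := hc.1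
  have h2 := hg.hp
  have hq : 0 < |(q : ℝ)| := by
    by_contra h
    have h0 : |(q : ℝ)| = 0 := le_antisymm (not_lt.1 h) (abs_nonneg _)
    rw [h0] at h1
    linarith
  rw [abs_div, abs_mul, abs_of_pos (pow_pos hT 2), div_le_iff₀ (by positivity)]
  calc |(p : ℝ)| ≤ 3000 * (T * V) := h2
    _ ≤ 3000 * (T * (3000 * (|(q : ℝ)| * T))) := by gcongr
    _ = 9000000 * (T ^ 2 * |(q : ℝ)|) := by ring

lemma y1_bound {R T V : ℝ} {a b c d e p q : ℤ} (hT : 0 < T) (hV : 0 < V)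
    (hg : Good4 3000 R T V a b c d e p q) (hc : Ch1 3000 R T V b c d e p q) :
    |(q : ℝ) * T ^ 2 / p| ≤ 9000000 := by
  have h1 := hc.1
  have h2 := hg.hq
  have hp : 0 < |(p : ℝ)| := by
    by_contra h
    have h0 : |(p : ℝ)| = 0 := le_antisymm (not_lt.1 h) (abs_nonneg _)
    rw [h0] at h1
    have := mul_pos hT hV
    linarith
  rw [abs_div, abs_mul, abs_of_pos (pow_pos hT 2), div_le_iff₀ hp]
  calc |(q : ℝ)| * T ^ 2 = (|(q : ℝ)| * T) * T := by ring
    _ ≤ (3000 * V) * T := by gcongr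
    _ = 3000 * (T * V) := by ring
    _ ≤ 3000 * (3000 * |(p : ℝ)|) := by gcongr
    _ = 9000000 * |(p : ℝ)| := by ring

theorem fib4 (h2 : StmtIN24) (h1 : StmtIN14) : StmtFIB4 := by
  obtain ⟨c₂, S₂, hc₂, hS₂, h2⟩ := h2
  obtain ⟨c₁, S₁, hc₁, hS₁, h1⟩ := h1
  obtain ⟨K, hK⟩ : ∃ K : ℝ,
      K = 6002 * ((2 * (9000000 / c₂) + 2) + (2 * (9000000 / c₁) + 2)) := ⟨_, rfl⟩
  have hK1 : 1 ≤ K := by
    have e1 : 0 < 9000000 / c₂ := by positivity
    have e2 : 0 < 9000000 / c₁ := by positivity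
    rw [hK]
    linarith
  obtain ⟨S₃, hS₃⟩ : ∃ S₃ : ℝ, S₃ = K ^ (1200 : ℝ) := ⟨_, rfl⟩
  refine ⟨max (max S₁ S₂) S₃, le_trans hS₁ (le_trans (le_max_left _ _) (le_max_left _ _)),
    ?_⟩
  intro R T V a b c d 𝒟 ha hcube hR hT hS hV hlog hex
  have hSS1 : S₁ ≤ R * T ^ 4 := le_trans (le_trans (le_max_left _ _) (le_max_left _ _)) hS
  have hSS2 : S₂ ≤ R * T ^ 4 := le_trans (le_trans (le_max_right _ _) (le_max_left _ _)) hS
  have hSK : S₃ ≤ R * T ^ 4 := le_trans (le_max_right _ _) hS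
  have hT0 : 0 < T := by linarith
  set S : ℝ := R * T ^ 4 with hSdef
  have hS1 : 1 ≤ S := hS₁.trans hSS1
  have hS0 : 0 < S := by linarith
  have hV0 : 0 < V := lt_of_lt_of_le (Real.rpow_pos_of_pos hS0 _) hV
  choose! p q hpq using hex
  classical
  set D2 : Finset ℤ := 𝒟.filter fun e => Ch2 3000 R T V a b c d (p e) (q e) with hD2
  set D1 : Finset ℤ := 𝒟.filter fun e => ¬ Ch2 3000 R T V a b c d (p e) (q e) with hD1
  have hcard : D2.card + D1.card = 𝒟.card := Finset.card_filter_add_card_filter_not _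
  set L : ℝ := S ^ ((1 : ℝ) / 11) with hL
  have hL0 : 0 < L := Real.rpow_pos_of_pos hS0 _
  set B : ℝ := S ^ ((1 : ℝ) / 22 + 1 / 400) with hBdef
  have hB0 : 0 ≤ B := (Real.rpow_pos_of_pos hS0 _).le
  have k2 : (D2.card : ℝ) ≤ B * ((2 * (3000 * S / L) + 2) * (2 * (9000000 / c₂) + 2)) := by
    refine fibre D2 (fun e => (p e : ℝ) / (T ^ 2 * q e)) (3000 * S) L c₂ 9000000 B (by positivity)
      hL0 hc₂ (by norm_num) hB0 ?_ ?_ ?_
    · intro e he
      rw [hD2, Finset.mem_filter] at he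
      exact (hpq e he.1).1.he
    · intro e he
      rw [hD2, Finset.mem_filter] at he
      exact y2_bound hT0 hV0 (hpq e he.1).1 he.2
    · intro D' hD' hyy hdd
      refine h2 R T V a b c d p q D' ha hcube hR hT hSS2 hV hlog ?_ hyy hdd
      intro e he
      have he' := hD' he
      rw [hD2, Finset.mem_filter] at he'
      exact ⟨(hpq e he'.1).1, he'.2⟩
  have k1 : (D1.card : ℝ) ≤ B * ((2 * (3000 * S / L) + 2) * (2 * (9000000 / c₁) + 2)) := by
    have hch : ∀ e ∈ D1, Good4 3000 R T V a b c d e (p e) (q e) ∧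
        Ch1 3000 R T V b c d e (p e) (q e) := by
      intro e he
      rw [hD1, Finset.mem_filter] at he
      obtain ⟨hg, hch⟩ := hpq e he.1
      exact ⟨hg, hch.resolve_left he.2⟩
    refine fibre D1 (fun e => (q e : ℝ) * T ^ 2 / p e) (3000 * S) L c₁ 9000000 B (by positivity)
      hL0 hc₁ (by norm_num) hB0 ?_ ?_ ?_
    · intro e he
      exact (hch e he).1.he
    · intro e he
      exact y1_bound hT0 hV0 (hch e he).1 (hch e he).2
    · intro D' hD' hyy hdd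
      exact h1 R T V a b c d p q D' ha hcube hR hT hSS1 hV hlog (fun e he => hch e (hD' he)) hyy hdd
  have hSL : S / L = S ^ ((10 : ℝ) / 11) := by
    rw [hL, div_eq_iff (Real.rpow_pos_of_pos hS0 _).ne', ← Real.rpow_add hS0]
    norm_num
  have hSL1 : 1 ≤ S / L := by
    rw [hSL]
    exact Real.one_le_rpow hS1 (by norm_num)
  have hKS : K ≤ S ^ ((1 : ℝ) / 1200) := by
    have e : K = S₃ ^ ((1 : ℝ) / 1200) := by
      rw [hS₃, ← Real.rpow_mul (by linarith)]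
      norm_num
    rw [e]
    exact Real.rpow_le_rpow (by rw [hS₃]; positivity) hSK (by norm_num)
  have hf : 2 * (3000 * S / L) + 2 ≤ 6002 * (S / L) := by
    rw [mul_div_assoc]
    linarith
  calc (𝒟.card : ℝ) = (D2.card : ℝ) + (D1.card : ℝ) := by rw [← hcard]; push_cast; ring
    _ ≤ B * ((2 * (3000 * S / L) + 2) * (2 * (9000000 / c₂) + 2)) +
        B * ((2 * (3000 * S / L) + 2) * (2 * (9000000 / c₁) + 2)) := add_le_add k2 k1
    _ = B * (2 * (3000 * S / L) + 2) * ((2 * (9000000 / c₂) + 2) + (2 * (9000000 / c₁) + 2)) := by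
      ring
    _ ≤ B * (6002 * (S / L)) * ((2 * (9000000 / c₂) + 2) + (2 * (9000000 / c₁) + 2)) := by
      gcongr
    _ = K * (B * (S / L)) := by rw [hK]; ring
    _ ≤ S ^ ((1 : ℝ) / 1200) * (B * (S / L)) := by
      gcongr
    _ = S ^ (1 - (1 : ℝ) / 22 + 1 / 300) := by
      rw [hSL, hBdef, ← Real.rpow_add hS0, ← Real.rpow_add hS0]
      norm_num

end Pool.Agent.Q252.HL.FIB4
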